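import Mathlib
import Pool.Agent.Results.MP_03d093_al.SphereBall

set_option autoImplicit false

namespace Pool.Agent.Results.MP_bbfbdc_al.SphereSqrt

open Pool.Agent.Results.MP_03d093_al.SphereBall

/-- number of letters `A` -/
def cA : List Lt → ℕ
  | [] => 0
  | .A :: w => cA w + 1
  | _ :: w => cA w

theorem sig_len (w : List Lt) : (sig w).length = w.length + 2 * cA w := by
  induction w with
  | nil => simp [sig, cA]
  | cons s w ih =>
    have : sig (s :: w) = sg s ++ sig w := rfl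
    rw [this, List.length_append, ih]
    cases s <;> simp [sg, cA] <;> omega

/-- a word without two consecutive letters `A` -/
theorem cA_le : ∀ (w : List Lt), (∀ p q, w ≠ p ++ Lt.A :: Lt.A :: q) → 2 * cA w ≤ w.length + 1
  | [], _ => by simp [cA]
  | [s], _ => by cases s <;> simp [cA]
  | s :: t :: w, h => by
    have h1 := cA_le (t :: w) (fun p q hpq => h (s :: p) q (by rw [hpq]; rfl))
    have h2 := cA_le w (fun p q hpq => h (s :: t :: p) q (by rw [hpq]; rfl))
    cases s
    · cases t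
      · exact absurd rfl (h [] w)
      all_goals
        simp only [cA, List.length_cons] at *
        omega
    all_goals
      simp only [cA, List.length_cons] at *
      omega

theorem geod_noAA (w : List Lt) (h : w.length = len (evG w)) (p q : List Lt) :
    w ≠ p ++ Lt.A :: Lt.A :: q := by
  rintro rfl
  have e : evG (p ++ Lt.A :: Lt.A :: q) = evG (p ++ q) := by
    apply Subtype.ext
    show ev _ = ev _
    rw [ev_append, ev_append, ev_cons, ev_cons, ← mul_assoc (gen Lt.A), gen_sq, one_mul]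
  rw [e] at h
  have := len_le (p ++ q)
  simp only [List.length_append, List.length_cons] at h this
  omega

/-- `γ(n)² ≤ K γ(4n+4)`. -/
theorem key4 : ∃ K : ℕ, 0 < K ∧ ∀ n : ℕ, ball n ^ 2 ≤ ball (4 * n + 4) * K := by
  have : Finite DD := DD_finite
  have : Nonempty DD := ⟨⟨1, by simp [DD]⟩⟩
  refine ⟨Nat.card (DD × DD), Nat.card_pos, ?_⟩
  intro n
  choose W hW1 hW2 using exists_geod
  let w : G → G → List Lt := fun g h => sig (W g) ++ [.A] ++ sig (W h) ++ [.A]
  have hsl : ∀ g : G, len g ≤ n → (sig (W g)).length ≤ 2 * n + 1 := by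
    intro g hg
    have h1 := cA_le (W g) (geod_noAA (W g) (by rw [hW2, hW1]))
    rw [sig_len]
    have := hW1 g
    omega
  have hw : ∀ g h : G, len g ≤ n → len h ≤ n → len (evG (w g h)) ≤ 4 * n + 4 := by
    intro g h hg hh
    have h1 := len_le (w g h)
    have h2 := hsl g hg
    have h3 := hsl h hh
    have h4 : (w g h).length = (sig (W g)).length + 1 + (sig (W h)).length + 1 := by
      simp only [w, List.length_append, List.length_singleton]
    omega
  have hevw : ∀ g h : G, Sec (ev (w g h)) (tau (W g) * ev (W h)) (ev (W g) * tau (W h)) := by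
    intro g h
    have := sec_pair (W g) (W h)
    have e : ev (w g h) = ev (sig (W g) ++ [.A] ++ sig (W h)) * a := by
      simp only [w]
      rw [ev_append _ [Lt.A]]
      simp [gen]
    rw [e]
    exact this
  let F : {g : G // len g ≤ n} × {g : G // len g ≤ n} → {g : G // len g ≤ 4 * n + 4} × (DD × DD) :=
    fun p => (⟨evG (w p.1 p.2), hw _ _ p.1.2 p.2.2⟩,
      (⟨tau (W p.1), tau_mem _⟩, ⟨tau (W p.2), tau_mem _⟩))
  have hF : Function.Injective F := by
    rintro ⟨g, h⟩ ⟨g', h'⟩ hE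
    simp only [F, Prod.mk.injEq, Subtype.mk.injEq] at hE
    obtain ⟨e1, e4, e5⟩ := hE
    have e6 : ev (w g h) = ev (w g' h') := congrArg Subtype.val e1
    have s3 := hevw g h
    rw [e6] at s3
    obtain ⟨e7, e8⟩ := s3.unique (hevw g' h')
    rw [e4] at e7
    rw [e5] at e8
    have e9 := mul_left_cancel e7
    have e10 := mul_right_cancel e8
    have e11 : evG (W g) = evG (W g') := Subtype.ext e10
    have e12 : evG (W h) = evG (W h') := Subtype.ext e9
    rw [hW2, hW2] at e11 e12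
    exact Prod.ext (Subtype.ext e11) (Subtype.ext e12)
  have := Nat.card_le_card_of_injective F hF
  rw [Nat.card_prod, Nat.card_prod] at this
  unfold ball
  rw [sq]
  exact this

theorem ball_lower : ∃ M : ℕ, 0 < M ∧ ∀ k : ℕ, 3 ^ 2 ^ k ≤ ball (4 ^ k * M) := by
  obtain ⟨K, hK, hkey⟩ := key4
  obtain ⟨m, hm⟩ := ball_unbounded (3 * K)
  refine ⟨m + 2, by omega, ?_⟩
  have h : ∀ k : ℕ, K * 3 ^ 2 ^ k ≤ ball (4 ^ k * (m + 2) - 2) := by
    intro k
    induction k with
    | zero =>
      refine le_trans ?_ (hm.trans (ball_mono (by simp)))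
      simp [mul_comm]
    | succ k ih =>
      have hp : 1 ≤ 4 ^ k := Nat.one_le_pow _ _ (by norm_num)
      have h2 : 2 ≤ 4 ^ k * (m + 2) := by nlinarith
      have h1 : 4 * (4 ^ k * (m + 2) - 2) + 4 ≤ 4 ^ (k + 1) * (m + 2) - 2 := by
        have : 4 ^ (k + 1) * (m + 2) = 4 * (4 ^ k * (m + 2)) := by ring
        rw [this]; omega
      have h3 := (hkey (4 ^ k * (m + 2) - 2)).trans (Nat.mul_le_mul_right K (ball_mono h1))
      have h4 : (K * 3 ^ 2 ^ k) ^ 2 ≤ ball (4 ^ (k + 1) * (m + 2) - 2) * K :=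
        (Nat.pow_le_pow_left ih 2).trans h3
      have h5 : (K * 3 ^ 2 ^ k) ^ 2 = (K * 3 ^ 2 ^ (k + 1)) * K := by
        rw [pow_succ 2 k, pow_mul]; ring
      rw [h5] at h4
      exact Nat.le_of_mul_le_mul_right h4 hK
  intro k
  calc 3 ^ 2 ^ k ≤ K * 3 ^ 2 ^ k := Nat.le_mul_of_pos_left _ hK
    _ ≤ _ := h k
    _ ≤ _ := ball_mono (Nat.sub_le _ _)

/-- **Main theorem**: the number of elements of length exactly `C n` of the first Grigorchuk group is
at least `exp (n ^ (1/2))`, for some `C ≥ 1` and all `n`. -/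
theorem result : ∃ C : ℕ, 0 < C ∧ ∀ n : ℕ,
    Real.exp ((n : ℝ) ^ (1 / 2 : ℝ)) ≤ (sph (C * n) : ℝ) := by
  obtain ⟨M, hM, hb⟩ := ball_lower
  obtain ⟨C, hC, hs⟩ := ball_le_sph
  refine ⟨C * (4 * M), by positivity, ?_⟩
  intro n
  rcases Nat.eq_zero_or_pos n with rfl | hn
  · have h1 : (((0 : ℕ) : ℝ)) ^ (1 / 2 : ℝ) = 0 := by
      rw [Nat.cast_zero]; exact Real.zero_rpow (by norm_num)
    rw [h1, Real.exp_zero, Nat.mul_zero]
    have h2 : 0 < sph 0 := by
      unfold sph
      have : Nonempty {g : G // len g = 0} := ⟨⟨evG [], by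
        have := len_le []
        simpa using this⟩⟩
      exact Nat.card_pos
    exact_mod_cast h2
  · -- choose k with 4^k ≤ n < 4^(k+1)
    obtain ⟨k, hk1, hk2⟩ : ∃ k, 4 ^ k ≤ n ∧ n < 4 ^ (k + 1) :=
      ⟨Nat.log 4 n, Nat.pow_log_le_self 4 (by omega), Nat.lt_pow_succ_log_self (by norm_num) n⟩
    have h1 : ball (4 ^ (k + 1) * M) ≤ sph (C * (4 * M) * n) := by
      apply hs
      · have : 1 ≤ 4 ^ (k + 1) := Nat.one_le_pow _ _ (by norm_num)
        nlinarith
      · have : C * (4 ^ (k + 1) * M) = C * (4 * M) * 4 ^ k := by ring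
        rw [this]
        exact Nat.mul_le_mul_left _ hk1
    have h2 : 3 ^ 2 ^ (k + 1) ≤ sph (C * (4 * M) * n) := (hb (k + 1)).trans h1
    have h3 : ((n : ℝ)) ^ (1 / 2 : ℝ) ≤ (2 : ℝ) ^ (k + 1) := by
      rw [← Real.sqrt_eq_rpow]
      apply Real.sqrt_le_iff.2
      refine ⟨by positivity, ?_⟩
      have : ((n : ℝ)) ≤ (4 : ℝ) ^ (k + 1) := by exact_mod_cast hk2.le
      refine this.trans (le_of_eq ?_)
      rw [← pow_mul, mul_comm (k + 1) 2, pow_mul]
      norm_num
    calc Real.exp ((n : ℝ) ^ (1 / 2 : ℝ)) ≤ Real.exp ((2 : ℝ) ^ (k + 1)) := Real.exp_le_exp.2 h3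
      _ = Real.exp 1 ^ (2 ^ (k + 1)) := by
        rw [← Real.exp_nat_mul]
        simp
      _ ≤ 3 ^ (2 ^ (k + 1)) := by
        apply pow_le_pow_left₀ (Real.exp_pos 1).le
        have := Real.exp_one_lt_d9
        linarith
      _ ≤ (sph (C * (4 * M) * n) : ℝ) := by exact_mod_cast h2

end Pool.Agent.Results.MP_bbfbdc_al.SphereSqrt
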